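import Pool.Agent.H26.Bunchy.SetBound
import Pool.Agent.H75.Bunchy.AMT

/-!
# The weight bound over all bases at once

For a strongly connected graph `G` with a right resolver onto a graph `B` we take a synchronizing
factor `H` of `G` over `B` with the fewest vertices. Every right resolver of `H` over `B`, onto
whatever graph `N`, has no stable pair, so that the weight bound holds over each base `N`.
-/

set_option autoImplicit false
set_option linter.unusedSectionVars false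
set_option linter.deprecated false

namespace Pool.Agent.H49.SB

open Pool.Agent.H75.Bunchy Pool.Agent.H26.Bunchy
open scoped Classical

section Aut
variable {V K E : Type*} [Finite V] {s t : E → K} {σ : V → K} {a : V → E → V}

/-- Without stable pairs and with a non injective type map the rank is at least two. -/
lemma two_le_rank_of_not_injective (ha : Typed s t σ a) (hc : Conn s σ a)
    (hno : NoStable s t σ a) (hi : ¬ Function.Injective σ) : 2 ≤ rank s t σ a := by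
  by_contra hlt
  refine hi fun x y hxy => hno x y ⟨hxy, fun v hv => ?_⟩
  obtain ⟨u, hu, hr⟩ := exists_rank ha hc (run a x v)
  have hx := ha.run x v hv
  have hy := ha.run y v (by rw [← hxy]; exact hv)
  refine ⟨u, by rw [← hx]; exact hu, ?_⟩
  have h1 : (img σ a (σ (run a x v)) u).ncard ≤ 1 := by omega
  rw [Set.ncard_le_one (Set.toFinite _)] at h1
  rw [run_append, run_append]
  refine h1 _ ⟨run a x v, rfl, rfl⟩ _ ⟨run a y v, ?_, rfl⟩
  simp only [Set.mem_setOf_eq]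
  rw [hx, hy, hxy]

end Aut

/-- `N` lies over `B`, as a factor of `H` by `Λ`: there is a right resolver from `N` to `B` which
composed with `Λ` has the vertex map of `Θ`. -/
def OverBase {H B N : Graph} (Θ : RightResolver H B) (Λ : RightResolver H N) : Prop :=
  ∃ Γ : RightResolver N B, ∀ x, Γ.v (Λ.v x) = Θ.v x

/-- If `B` is minimal, then every factor of `H` lies over `B`. -/
lemma overBase_of_minimal {H B N : Graph} (hB : Minimal B) (Θ : RightResolver H B)
    (Λ : RightResolver H N) : OverBase Θ Λ := by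
  obtain ⟨M, hM, ⟨Γ₀⟩⟩ := exists_minimal N
  obtain ⟨Λ₀, _, _, hΛ₀⟩ := hM.unique hB (RightResolver.comp Γ₀ Λ) Θ
  exact ⟨RightResolver.comp Λ₀ Γ₀, fun x => hΛ₀ x⟩

lemma OverBase.congr {H B N : Graph} {Θ : RightResolver H B} {Λ Λ' : RightResolver H N}
    (h : OverBase Θ Λ) (hv : Λ'.v = Λ.v) : OverBase Θ Λ' := by
  obtain ⟨Γ, hΓ⟩ := h
  exact ⟨Γ, fun x => by rw [hv]; exact hΓ x⟩

/-- There is a synchronizing factor over `B` with the fewest vertices. -/
lemma exists_smallest (G B : Graph) (Φ : RightResolver G B) :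
    ∃ (H : Graph) (Θ : RightResolver H B) (Ψ : RightResolver G H), Ψ.Synchronizing ∧
      (∀ p, Θ.v (Ψ.v p) = Φ.v p) ∧
      ∀ (H' : Graph) (Θ' : RightResolver H' B) (Ψ' : RightResolver G H'), Ψ'.Synchronizing →
        (∀ p, Θ'.v (Ψ'.v p) = Φ.v p) → Nat.card H.V ≤ Nat.card H'.V := by
  have hex : ∃ n, ∃ (H : Graph) (Θ : RightResolver H B) (Ψ : RightResolver G H),
      Ψ.Synchronizing ∧ (∀ p, Θ.v (Ψ.v p) = Φ.v p) ∧ Nat.card H.V = n :=
    ⟨_, G, Φ, RightResolver.id G, RightResolver.id_synchronizing G, fun _ => rfl, rfl⟩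
  obtain ⟨H, Θ, Ψ, h1, h2, h3⟩ := Nat.find_spec hex
  refine ⟨H, Θ, Ψ, h1, h2, fun H' Θ' Ψ' h1' h2' => ?_⟩
  rw [h3]
  exact Nat.find_min' hex ⟨H', Θ', Ψ', h1', h2', rfl⟩

/-- A smallest synchronizing factor has no stable pair over any base. -/
lemma noStable_of_smallest {G B H : Graph} {Φ : RightResolver G B} {Θ : RightResolver H B}
    {Ψ : RightResolver G H} (hΨ : Ψ.Synchronizing) (hcomm : ∀ p, Θ.v (Ψ.v p) = Φ.v p)
    (hmin : ∀ (H' : Graph) (Θ' : RightResolver H' B) (Ψ' : RightResolver G H'),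
      Ψ'.Synchronizing → (∀ p, Θ'.v (Ψ'.v p) = Φ.v p) → Nat.card H.V ≤ Nat.card H'.V)
    {N : Graph} (Λ : RightResolver H N) (h : OverBase Θ Λ) : NoStable N.src N.tgt Λ.v Λ.act := by
  by_contra hst
  obtain ⟨Γ, hΓ⟩ := h
  have hlt := card_quot_lt Λ hst
  have hle := hmin Λ.quot (RightResolver.comp Γ Λ.desc) (RightResolver.comp Λ.proj Ψ)
    (RightResolver.Synchronizing.comp Λ.proj_synchronizing hΨ) (fun p => by
      rw [RightResolver.comp_v, RightResolver.comp_v, Λ.desc_proj_v, hΓ, hcomm])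
  omega

/-- one vertex is collapsed by the empty path -/
lemma commonCollapse_singleton {H N : Graph} (v : H.V → N.V) (z : H.V) :
    CommonCollapse (H := N) v {z} :=
  ⟨v z, [], fun x hx => by rw [Set.mem_singleton_iff.1 hx], fun Φ' _ => ⟨z, fun x hx => by
    rw [Set.mem_singleton_iff.1 hx]; exact RightResolver.Leads.nil z⟩⟩

section Split

noncomputable local instance (G : Graph) : Fintype G.V := Fintype.ofFinite _

/-- The bound for one vertex leaves, over each pair of vertices of the base, a vertex with at most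
one follower. -/
lemma exists_unsplit {H N : Graph} (hH : H.StronglyConnected) (Λ : RightResolver H N) {ρ : ℕ}
    (hρ : 2 ≤ ρ) (hb : ∀ (pr : N.V → N.V → ℝ) (μ : H.V → ℝ), FairWeights Λ.v pr μ → ∀ z,
      (ρ : ℝ) * (2 * share Λ.v μ z + ∑ᶠ x, (splits Λ.v x : ℝ) * share Λ.v μ x) ≤ 2)
    (I J : N.V) : ∃ x, Λ.v x = I ∧ (FollowersOver Λ.v x J).ncard ≤ 1 := by
  by_contra hcon
  push Not at hcon
  obtain ⟨p, hp⟩ := Λ.v_surj I
  have hp2 : 2 ≤ (FollowersOver Λ.v p J).ncard := hcon p hp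
  obtain ⟨q, hq⟩ := Set.nonempty_of_ncard_ne_zero (s := FollowersOver Λ.v p J) (by omega)
  rw [Λ.mem_followersOver] at hq
  obtain ⟨g, hg, _, _⟩ := hq
  obtain ⟨pr, μ, hf⟩ := exists_fair Λ hH hg
  have hpos : ∀ z, 0 < share Λ.v μ z := fun z => by
    rw [share_eq]; exact wt_pos hf.mu_pos z
  set F : Finset H.V := Finset.univ.filter fun x => Λ.v x = I with hF
  have hsum : ∑ x ∈ F, share Λ.v μ x = 1 := by
    have := sum_wt_fibre (σ := Λ.v) hf.mu_pos p
    rw [hp] at this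
    rw [← this]
    exact Finset.sum_congr rfl fun x _ => share_eq _ _ _
  have hge : (1 : ℝ) ≤ ∑ᶠ x, (splits Λ.v x : ℝ) * share Λ.v μ x := by
    rw [finsum_eq_sum_of_fintype, ← hsum]
    have h1 : ∑ x ∈ F, share Λ.v μ x ≤ ∑ x ∈ F, (splits Λ.v x : ℝ) * share Λ.v μ x := by
      refine Finset.sum_le_sum fun x hx => ?_
      rw [hF, Finset.mem_filter] at hx
      have h2 := splits_pos (Φ := Λ) (p := x) (J := J) (hcon x hx.2)
      have h3 := hpos x
      nlinarith
    refine h1.trans (Finset.sum_le_sum_of_subset_of_nonneg (Finset.subset_univ _) ?_)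
    intro x _ _
    exact mul_nonneg (Nat.cast_nonneg _) (hpos x).le
  have hb' := hb pr μ hf p
  have hρ' : (2 : ℝ) ≤ ρ := by exact_mod_cast hρ
  have := hpos p
  nlinarith

end Split

/-- **Weight bound over all bases.** -/
theorem main_all (G B : Graph) (hG : G.StronglyConnected) (Φ : RightResolver G B) :
    ∃ (H : Graph) (Θ : RightResolver H B) (Ψ : RightResolver G H), Ψ.Synchronizing ∧
      (∀ p, Θ.v (Ψ.v p) = Φ.v p) ∧
      ∀ (N : Graph) (Λ : RightResolver H N),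
        (Minimal B ∨ ∃ Γ : RightResolver N B, ∀ x, Γ.v (Λ.v x) = Θ.v x) →
        ¬ Function.Injective Λ.v →
        ∃ ρ : ℕ, 2 ≤ ρ ∧
          (∀ (Λ' : RightResolver H N) (J : N.V) (u : List N.E), Λ'.v = Λ.v → N.IsPath J u →
            ρ ≤ {K | ∃ I, Λ'.v I = J ∧ Λ'.Leads I u K}.ncard) ∧
          (∃ (Λ' : RightResolver H N) (J : N.V) (u : List N.E), Λ'.v = Λ.v ∧ N.IsPath J u ∧
            {K | ∃ I, Λ'.v I = J ∧ Λ'.Leads I u K}.ncard = ρ) ∧
          ∀ (pr : N.V → N.V → ℝ) (μ : H.V → ℝ), FairWeights Λ.v pr μ →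
            ∀ C : Set H.V, C.Nonempty → CommonCollapse (H := N) Λ.v C →
              (ρ : ℝ) * (2 * ∑ᶠ z ∈ C, share Λ.v μ z +
                ∑ᶠ x, (splits Λ.v x : ℝ) * share Λ.v μ x) ≤ 2 := by
  obtain ⟨H, Θ, Ψ, hΨ, hcomm, hmin⟩ := exists_smallest G B Φ
  have hH : H.StronglyConnected := StronglyConnected.map Ψ hG
  refine ⟨H, Θ, Ψ, hΨ, hcomm, fun N Λ hov hi => ?_⟩
  have hov' : OverBase Θ Λ := by
    rcases hov with hB | h
    · exact overBase_of_minimal hB Θ Λ
    · exact h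
  have hno : ∀ Λ' : RightResolver H N, Λ'.v = Λ.v → NoStable N.src N.tgt Λ'.v Λ'.act :=
    fun Λ' hv => noStable_of_smallest hΨ hcomm hmin Λ' (hov'.congr hv)
  have hne : Nonempty H.V := by
    by_contra h
    rw [not_nonempty_iff] at h
    exact hi fun x => (h.false x).elim
  obtain ⟨ρ, hρ, Λ₀, hv₀, J₀, u₀, hu₀, hcard⟩ := exists_least Λ hne
  have hle : ∀ (Λ' : RightResolver H N) (J : N.V) (u : List N.E), Λ'.v = Λ.v → N.IsPath J u →
      rank N.src N.tgt Λ'.v Λ'.act ≤ {K | ∃ I, Λ'.v I = J ∧ Λ'.Leads I u K}.ncard := by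
    intro Λ' J u hv hu
    obtain ⟨q, rfl⟩ := Λ'.v_surj J
    rw [ends_eq Λ' hu]
    exact rank_le q u ((isPath_iff _ _ _).1 hu)
  refine ⟨ρ, ?_, fun Λ' J u hv hu => (hρ Λ' hv).trans (hle Λ' J u hv hu),
    ⟨Λ₀, J₀, u₀, hv₀, hu₀, hcard⟩, fun pr μ hf C hC hCC =>
      weight_bound_graph_set Λ hH hno hρ hf hC hCC⟩
  rw [← hcard]
  exact (two_le_rank_of_not_injective Λ₀.act_typed (Λ₀.conn hH) (hno Λ₀ hv₀)
    (by rw [hv₀]; exact hi)).trans (hle Λ₀ J₀ u₀ hv₀ hu₀)

/-- If the vertex map onto a bunchy graph is injective, the graph is bunchy. -/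
lemma isBunchy_of_injective {H B : Graph} (hB : IsBunchy B) (Θ : RightResolver H B)
    (hi : Function.Injective Θ.v) : IsBunchy H := by
  obtain ⟨M, hM, Λ, hΛ⟩ := hB
  refine ⟨M, hM, RightResolver.comp Λ Θ, fun I => ?_⟩
  refine (hΛ (Θ.v I)).comp ⟨?_, hi.injOn, ?_⟩
  · intro q hq; rw [followers_image]; exact ⟨q, hq, rfl⟩
  · rw [followers_image]; exact Set.surjOn_image _ _

/-- **Final form.** -/
theorem main_final (G B : Graph) (hG : G.StronglyConnected) (Φ : RightResolver G B) :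
    ∃ (H : Graph) (Θ : RightResolver H B) (Ψ : RightResolver G H), Ψ.Synchronizing ∧
      (∀ p, Θ.v (Ψ.v p) = Φ.v p) ∧
      (IsBunchy B → Function.Injective Θ.v → IsBunchy H) ∧
      ∀ (N : Graph) (Λ : RightResolver H N),
        (Minimal B ∨ ∃ Γ : RightResolver N B, ∀ x, Γ.v (Λ.v x) = Θ.v x) →
        (∀ I J : N.V, ∃ x, Λ.v x = I ∧ (FollowersOver Λ.v x J).ncard ≤ 1) ∧
        (¬ Function.Injective Λ.v →
          ∃ ρ : ℕ, 2 ≤ ρ ∧
            (∀ (Λ' : RightResolver H N) (J : N.V) (u : List N.E), Λ'.v = Λ.v → N.IsPath J u →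
              ρ ≤ {K | ∃ I, Λ'.v I = J ∧ Λ'.Leads I u K}.ncard) ∧
            (∃ (Λ' : RightResolver H N) (J : N.V) (u : List N.E), Λ'.v = Λ.v ∧ N.IsPath J u ∧
              {K | ∃ I, Λ'.v I = J ∧ Λ'.Leads I u K}.ncard = ρ) ∧
            ∀ (pr : N.V → N.V → ℝ) (μ : H.V → ℝ), FairWeights Λ.v pr μ →
              ∀ C : Set H.V, C.Nonempty → CommonCollapse (H := N) Λ.v C →
                (ρ : ℝ) * (2 * ∑ᶠ z ∈ C, share Λ.v μ z +
                  ∑ᶠ x, (splits Λ.v x : ℝ) * share Λ.v μ x) ≤ 2) := by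
  obtain ⟨H, Θ, Ψ, hΨ, hcomm, hall⟩ := main_all G B hG Φ
  refine ⟨H, Θ, Ψ, hΨ, hcomm, fun hB hi => isBunchy_of_injective hB Θ hi, fun N Λ hov => ?_⟩
  refine ⟨fun I J => ?_, fun hi => hall N Λ hov hi⟩
  by_cases hi : Function.Injective Λ.v
  · obtain ⟨x, hx⟩ := Λ.v_surj I
    refine ⟨x, hx, ?_⟩
    rw [Set.ncard_le_one (Set.toFinite _)]
    rintro y ⟨_, hy⟩ z ⟨_, hz⟩
    exact hi (by rw [hy, hz])
  · obtain ⟨ρ, hρ, _, _, hb⟩ := hall N Λ hov hi
    refine exists_unsplit (StronglyConnected.map Ψ hG) Λ hρ (fun pr μ hf z => ?_) I J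
    have := hb pr μ hf {z} ⟨z, rfl⟩ (commonCollapse_singleton Λ.v z)
    rwa [finsum_mem_singleton] at this

end Pool.Agent.H49.SB
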