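import Pool.Agent.H26.Bunchy.Nsf
import Pool.Agent.H49.SB.Main
import Pool.Agent.H99.TT.Main2

/-!
# Degree two

If all right resolvers onto a bunchy graph with a given vertex map have degree at most two, then a
smallest synchronizing factor is bunchy.
-/

set_option autoImplicit false
set_option linter.unusedSectionVars false
set_option linter.deprecated false

namespace Pool.Agent.H49.SB

open Pool.Agent.H75.Bunchy Pool.Agent.H26.Bunchy Pool.Agent.H99.TT
open scoped Classical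

/-- Every right resolver with the vertex map `v` has degree at most `n`: some path of `B` leads the
vertices over its start to at most `n` vertices. -/
def DegreeLe {G B : Graph} (v : G.V → B.V) (n : ℕ) : Prop :=
  ∀ Φ' : RightResolver G B, Φ'.v = v → ∃ (J : B.V) (u : List B.E), B.IsPath J u ∧
    {K | ∃ I, Φ'.v I = J ∧ Φ'.Leads I u K}.ncard ≤ n

/-- The ends in a factor are images of ends. -/
lemma ends_subset {G H B : Graph} (Θ : RightResolver H B) (Ψ : RightResolver G H) {J : B.V}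
    {u : List B.E} (hu : B.IsPath J u) :
    {K | ∃ I, Θ.v I = J ∧ Θ.Leads I u K} ⊆
      Ψ.v '' {K | ∃ I, (RightResolver.comp Θ Ψ).v I = J ∧
        (RightResolver.comp Θ Ψ).Leads I u K} := by
  rintro K ⟨I, hI, hK⟩
  obtain ⟨x, rfl⟩ := Ψ.v_surj I
  obtain ⟨K', hK'⟩ := (RightResolver.comp Θ Ψ).exists_leads x u
    (by rw [RightResolver.comp_v, hI]; exact hu)
  refine ⟨K', ⟨x, hI, hK'⟩, ?_⟩
  exact Θ.leads_unique (RightResolver.leads_down Θ Ψ hK') hK

/-- The rank is at most the degree. -/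
lemma rank_le_of_degreeLe {G H B : Graph} {Φ : RightResolver G B} (Θ : RightResolver H B)
    (Ψ : RightResolver G H) (hcomm : ∀ p, Θ.v (Ψ.v p) = Φ.v p) {n : ℕ}
    (hdeg : DegreeLe (B := B) Φ.v n) (Θ' : RightResolver H B) (hv : Θ'.v = Θ.v) :
    rank B.src B.tgt Θ'.v Θ'.act ≤ n := by
  obtain ⟨J, u, hu, hle⟩ := hdeg (RightResolver.comp Θ' Ψ) (by
    funext p
    rw [RightResolver.comp_v, hv, hcomm])
  obtain ⟨q, rfl⟩ := Θ'.v_surj J
  have h1 := rank_le (s := B.src) (t := B.tgt) (σ := Θ'.v) (a := Θ'.act) q u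
    ((isPath_iff _ _ _).1 hu)
  rw [← ends_eq Θ' hu] at h1
  refine h1.trans (((Set.ncard_le_ncard (ends_subset Θ' Ψ hu) (Set.toFinite _)).trans
    (Set.ncard_image_le (Set.toFinite _))).trans hle)

/-- If no vertex has two followers over one vertex of a bunchy graph, the graph is bunchy. -/
lemma isBunchy_of_no_split {H B : Graph} (hB : IsBunchy B) (Θ : RightResolver H B)
    (hex : ∀ p J, (FollowersOver Θ.v p J).ncard < 2) : IsBunchy H := by
  obtain ⟨M, hM, Λ, hΛ⟩ := hB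
  refine ⟨M, hM, RightResolver.comp Λ Θ, fun I => ?_⟩
  refine (hΛ (Θ.v I)).comp ⟨?_, ?_, ?_⟩
  · intro q hq; rw [followers_image]; exact ⟨q, hq, rfl⟩
  · intro q hq q' hq' hqq
    by_contra hne
    have h1 : ({q, q'} : Set H.V) ⊆ FollowersOver Θ.v I (Θ.v q) := by
      rintro x (rfl | rfl)
      · exact ⟨hq, rfl⟩
      · exact ⟨hq', hqq.symm⟩
    have h2 := Set.ncard_le_ncard h1 (Set.toFinite _)
    rw [Set.ncard_pair hne] at h2
    have := hex I (Θ.v q)
    omega
  · rw [followers_image]; exact Set.surjOn_image _ _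

section

noncomputable local instance (G : Graph) : Fintype G.V := Fintype.ofFinite _
noncomputable local instance (G : Graph) : Fintype G.E := Fintype.ofFinite _

/-- **Degree two.** -/
theorem isBunchy_of_degree_two {G H B : Graph} (hB : IsBunchy B) {Φ : RightResolver G B}
    (Θ : RightResolver H B) (Ψ : RightResolver G H) (hcomm : ∀ p, Θ.v (Ψ.v p) = Φ.v p)
    (hH : H.StronglyConnected)
    (hno : ∀ Θ' : RightResolver H B, Θ'.v = Θ.v → NoStable B.src B.tgt Θ'.v Θ'.act)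
    (hdeg : DegreeLe (B := B) Φ.v 2) : IsBunchy H := by
  by_cases hex : ∃ p J, 2 ≤ (FollowersOver Θ.v p J).ncard
  swap
  · push Not at hex
    exact isBunchy_of_no_split hB Θ hex
  exfalso
  obtain ⟨p, J, hpJ⟩ := hex
  obtain ⟨τ, hτ, hpair, hone⟩ := exists_pairing B
  obtain ⟨Φ', hv, hΦ'⟩ := exists_spread Θ hτ hone
  obtain ⟨e, he1, he2, he3⟩ := hpair (Θ.v p) J (hpJ.trans (Θ.ncard_followersOver_le p J))
  have hne : Φ'.act p e ≠ Φ'.act p (τ e) := hΦ' p e he1 he3 (by rw [he2]; exact hpJ)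
  obtain ⟨pr, μ, hf⟩ := exists_fair Θ hH he1
  have hf' : FairWeights Φ'.v pr μ := by rw [hv]; exact hf
  have hstat := hf'.toStat
  have htwist : ∀ δ, ∃ Φ'' : RightResolver H B, Φ''.v = Θ.v ∧ Φ''.act = tw τ δ Φ'.act := by
    intro δ
    obtain ⟨Φ'', hv'', hact''⟩ := exists_twist Φ' hτ δ
    exact ⟨Φ'', by rw [hv'', hv], hact''⟩
  have hno' : ∀ δ, NoStable B.src B.tgt Φ'.v (tw τ δ Φ'.act) := fun δ => by
    obtain ⟨Φ'', hv'', hact''⟩ := htwist δ
    have := hno Φ'' hv''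
    rw [hv'', hact''] at this
    rw [hv]
    exact this
  have hr : ∀ δ, rank B.src B.tgt Φ'.v (tw τ δ Φ'.act) = 2 := fun δ => by
    obtain ⟨Φ'', hv'', hact''⟩ := htwist δ
    have h1 := rank_le_of_degreeLe Θ Ψ hcomm hdeg Φ'' hv''
    have h2 := two_le_rank_graph Φ'' hH (hno Φ'' hv'') (by rw [hv'']; exact hpJ)
    rw [hv'', hact''] at h1 h2
    rw [hv]
    omega
  exact nsf22_tw hτ Φ'.act_typed (Φ'.conn hH) hstat
    (fun e => by simp only [hτ.hs, hτ.ht]) hno' ∅ p e (by rw [hv]; exact he1) hne (hr _) (hr _)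

/-- A collapsible set of share more than `1 / (n + 1)` bounds all degrees by `n`. -/
lemma degreeLe_of_share {G B : Graph} (hG : G.StronglyConnected) (Φ : RightResolver G B)
    {pr : B.V → B.V → ℝ} {μ : G.V → ℝ} (hf : FairWeights Φ.v pr μ) {C : Set G.V}
    (hne : C.Nonempty) (hC : Collapsible (H := B) Φ.v C) {n : ℕ}
    (h : 1 < ((n : ℝ) + 1) * ∑ᶠ z ∈ C, share Φ.v μ z) : DegreeLe (B := B) Φ.v n := by
  intro Φ' hv
  obtain ⟨z, hz⟩ := hne
  obtain ⟨J, hCJ, hu⟩ := hC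
  obtain ⟨u, K, hK⟩ := hu Φ' hv
  have hf' : FairWeights Φ'.v pr μ := by rw [hv]; exact hf
  have hstat := hf'.toStat
  have hpath := ((Φ'.leads_iff _ _ _).1 (hK z hz)).1
  have hzJ : Φ'.v z = J := by rw [hv]; exact hCJ z hz
  have hcoll : Coll B.src B.tgt Φ'.v Φ'.act C.toFinite.toFinset := by
    refine ⟨J, fun x hx => ?_, u, by rw [← hzJ]; exact hpath, fun x hx y hy => ?_⟩
    · rw [Set.Finite.mem_toFinset] at hx
      rw [hv]; exact hCJ x hx
    · rw [Set.Finite.mem_toFinset] at hx hy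
      rw [((Φ'.leads_iff _ _ _).1 (hK x hx)).2, ((Φ'.leads_iff _ _ _).1 (hK y hy)).2]
  have h1 := rank_mul_le Φ'.act_typed (Φ'.conn hG) hstat
    (fun e => by
      obtain ⟨p, hp⟩ := Φ'.v_surj (B.src e)
      exact ⟨p, hp.symm⟩) hcoll z
  have h2 : ∑ᶠ x ∈ C, share Φ.v μ x = ∑ p ∈ C.toFinite.toFinset, wt Φ'.v μ p := by
    rw [finsum_mem_eq_finite_toFinset_sum _ C.toFinite, hv]
    simp only [share_eq]
  rw [h2] at h
  have hpos : 0 < ∑ p ∈ C.toFinite.toFinset, wt Φ'.v μ p := by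
    refine Finset.sum_pos (fun p _ => wt_pos hf'.mu_pos p) ⟨z, ?_⟩
    rw [Set.Finite.mem_toFinset]; exact hz
  have h3 : rank B.src B.tgt Φ'.v Φ'.act ≤ n := by
    by_contra hcon
    push Not at hcon
    have h4 : ((n : ℝ) + 1) ≤ rank B.src B.tgt Φ'.v Φ'.act := by exact_mod_cast hcon
    have := mul_le_mul_of_nonneg_right h4 hpos.le
    linarith
  have : Nonempty G.V := ⟨z⟩
  obtain ⟨p, w, hw, hcard⟩ := exists_rank0 (V := G.V) (s := B.src) (t := B.tgt) (σ := Φ'.v)
    (a := Φ'.act)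
  have hw' : B.IsPath (Φ'.v p) w := (isPath_iff _ _ _).2 hw
  exact ⟨Φ'.v p, w, hw', by rw [ends_eq Φ' hw', hcard]; exact h3⟩

end

end Pool.Agent.H49.SB
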