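import Pool.Agent.H49.SB.Push
import Pool.Agent.H49.SB.Deg

/-!
# Heavy sets

If collapsible sets or sets of followers are heavy for some fair weights, a smallest synchronizing
factor is bunchy.
-/

set_option autoImplicit false
set_option linter.unusedSectionVars false
set_option linter.deprecated false

namespace Pool.Agent.H49.SB

open Pool.Agent.H75.Bunchy Pool.Agent.H26.Bunchy Pool.Agent.H99.TT
open scoped Classical

section

noncomputable local instance instVHeavy (G : Graph) : Fintype G.V := Fintype.ofFinite _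
noncomputable local instance instEHeavy (G : Graph) : Fintype G.E := Fintype.ofFinite _

variable {G H B : Graph}

/-- the image of a collapsible set is collapsible -/
lemma collapsible_image {Φ : RightResolver G B} (Θ : RightResolver H B) (Ψ : RightResolver G H)
    (hcomm : ∀ p, Θ.v (Ψ.v p) = Φ.v p) {C : Set G.V} (hC : Collapsible (H := B) Φ.v C) :
    Collapsible (H := B) Θ.v (Ψ.v '' C) := by
  obtain ⟨J, hJ, hC⟩ := hC
  refine ⟨J, ?_, fun Θ' hv => ?_⟩
  · rintro _ ⟨x, hx, rfl⟩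
    rw [hcomm]; exact hJ x hx
  · obtain ⟨u, K, hK⟩ := hC (RightResolver.comp Θ' Ψ) (by
      funext p
      rw [RightResolver.comp_v, hv, hcomm])
    refine ⟨u, Ψ.v K, ?_⟩
    rintro _ ⟨x, hx, rfl⟩
    exact RightResolver.leads_down Θ' Ψ (hK x hx)

/-- the followers of an image are the images of the followers -/
lemma followersOver_image {Φ : RightResolver G B} (Θ : RightResolver H B) (Ψ : RightResolver G H)
    (hcomm : ∀ p, Θ.v (Ψ.v p) = Φ.v p) (x : G.V) (J : B.V) :
    FollowersOver Θ.v (Ψ.v x) J = Ψ.v '' FollowersOver Φ.v x J := by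
  ext y
  constructor
  · rintro ⟨h1, h2⟩
    rw [followers_image] at h1
    obtain ⟨q, hq, rfl⟩ := h1
    exact ⟨q, ⟨hq, by rw [← hcomm]; exact h2⟩, rfl⟩
  · rintro ⟨q, ⟨h1, h2⟩, rfl⟩
    refine ⟨?_, by rw [hcomm]; exact h2⟩
    rw [followers_image]
    exact ⟨q, h1, rfl⟩

/-- **Heavy sets.** -/
theorem isBunchy_of_heavy (hB : IsBunchy B) {Φ : RightResolver G B} (Θ : RightResolver H B)
    (Ψ : RightResolver G H) (hcomm : ∀ p, Θ.v (Ψ.v p) = Φ.v p) {pr : B.V → B.V → ℝ} {μ : G.V → ℝ}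
    (hf : FairWeights Φ.v pr μ)
    (hH : ∀ μ', FairWeights Θ.v pr μ' → (∃ y, splits Θ.v y ≠ 0) →
      3 * ∑ᶠ y, (splits Θ.v y : ℝ) * share Θ.v μ' y ≤ 2 ∧
      ∀ C : Set H.V, C.Nonempty → Collapsible (H := B) Θ.v C →
        12 * ∑ᶠ z ∈ C, share Θ.v μ' z + 3 * ∑ᶠ y, (splits Θ.v y : ℝ) * share Θ.v μ' y ≤ 4)
    (hh : ∀ s : ℝ, 0 < s → 3 * s ≤ 2 →
      (∃ C : Set G.V, C.Nonempty ∧ Collapsible (H := B) Φ.v C ∧
        4 < 12 * ∑ᶠ z ∈ C, share Φ.v μ z + 3 * s) ∨
      s < ∑ᶠ x, ({J | 4 < 12 * ∑ᶠ z ∈ FollowersOver Φ.v x J, share Φ.v μ z + 3 * s}.ncard : ℝ) *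
        share Φ.v μ x) : IsBunchy H := by
  by_cases hex : ∃ p J, 2 ≤ (FollowersOver Θ.v p J).ncard
  swap
  · push Not at hex
    exact isBunchy_of_no_split hB Θ hex
  exfalso
  obtain ⟨p, J₀, hpJ⟩ := hex
  have hp0 : 0 < splits Θ.v p := (Set.ncard_pos (Set.toFinite _)).2 ⟨J₀, hpJ⟩
  set μ' := pushW Ψ.v μ with hμ'
  have hf' : FairWeights Θ.v pr μ' := FairWeights.push Ψ hcomm hf
  have hposH : ∀ y, 0 < share Θ.v μ' y := fun y => by
    rw [share_eq]; exact wt_pos hf'.mu_pos y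
  have hposG : ∀ x, 0 < share Φ.v μ x := fun x => by
    rw [share_eq]; exact wt_pos hf.mu_pos x
  set s := ∑ᶠ y, (splits Θ.v y : ℝ) * share Θ.v μ' y with hs
  obtain ⟨hs3, hC⟩ := hH μ' hf' ⟨p, hp0.ne'⟩
  have hsum : s = ∑ y, (splits Θ.v y : ℝ) * share Θ.v μ' y := by
    rw [hs, finsum_eq_sum_of_fintype]
  have hs0 : 0 < s := by
    rw [hsum]
    refine Finset.sum_pos' (fun y _ => mul_nonneg (Nat.cast_nonneg _) (hposH y).le)
      ⟨p, Finset.mem_univ _, mul_pos (Nat.cast_pos.2 hp0) (hposH p)⟩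
  rcases hh s hs0 hs3 with ⟨C, hne, hcol, hlt⟩ | hlt
  · have h1 := hC (Ψ.v '' C) (hne.image _) (collapsible_image Θ Ψ hcomm hcol)
    have h2 := share_image_le Θ Ψ hcomm hf C
    linarith
  · have hle : ∀ x, {J | 4 < 12 * ∑ᶠ z ∈ FollowersOver Φ.v x J, share Φ.v μ z + 3 * s}.ncard ≤
        splits Θ.v (Ψ.v x) := by
      intro x
      unfold splits
      refine Set.ncard_le_ncard ?_ (Set.toFinite _)
      intro J hJ
      rw [Set.mem_setOf_eq] at hJ ⊢
      by_contra hcon
      push Not at hcon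
      have h2 := share_image_le Θ Ψ hcomm hf (FollowersOver Φ.v x J)
      rw [← followersOver_image Θ Ψ hcomm] at h2
      have h3 : (FollowersOver Θ.v (Ψ.v x) J).ncard ≤ 1 := by omega
      rcases Set.eq_empty_or_nonempty (FollowersOver Θ.v (Ψ.v x) J) with h4 | ⟨y, hy⟩
      · rw [h4, finsum_mem_empty] at h2
        linarith
      · have h5 : FollowersOver Θ.v (Ψ.v x) J = {y} :=
          Set.eq_singleton_iff_unique_mem.2 ⟨hy, fun z hz =>
            (Set.ncard_le_one (Set.toFinite _)).1 h3 z hz y hy⟩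
        have h6 := hC {y} ⟨y, rfl⟩ (collapsible_singleton Θ.v y)
        rw [h5] at h2
        linarith
    have h7 : ∑ᶠ x, ({J | 4 < 12 * ∑ᶠ z ∈ FollowersOver Φ.v x J, share Φ.v μ z +
        3 * s}.ncard : ℝ) * share Φ.v μ x ≤ s := by
      have h8 : ∀ y, (splits Θ.v y : ℝ) * share Θ.v μ' y =
          ∑ x, if Ψ.v x = y then (splits Θ.v (Ψ.v x) : ℝ) * share Φ.v μ x else 0 := by
        intro y
        have h9 : share Θ.v μ' y = ∑ x, if Ψ.v x = y then share Φ.v μ x else 0 := by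
          rw [hμ', share_push Φ Θ Ψ hcomm]
          exact finsum_mem_ite (fun x => Ψ.v x = y) _
        rw [h9, Finset.mul_sum]
        refine Finset.sum_congr rfl fun x _ => ?_
        split_ifs with h
        · rw [h]
        · rw [mul_zero]
      have h10 : ∑ x, (splits Θ.v (Ψ.v x) : ℝ) * share Φ.v μ x = s := by
        rw [hsum]
        simp only [h8]
        rw [Finset.sum_comm]
        refine Finset.sum_congr rfl fun x _ => ?_
        rw [Finset.sum_ite_eq]
        simp only [Finset.mem_univ, if_true]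
      rw [finsum_eq_sum_of_fintype]
      refine le_of_le_of_eq (Finset.sum_le_sum fun x _ => ?_) h10
      exact mul_le_mul_of_nonneg_right (by exact_mod_cast hle x) (hposG x).le
    linarith

end

end Pool.Agent.H49.SB
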