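import Pool.Agent.H49.SB.Deg
import Pool.Agent.H35.Sel.Kern

/-!
# Levels

If a smallest synchronizing factor over a bunchy graph is not bunchy, some right resolver has
degree at least three, and its kernels divide every fibre into at least three parts of equal share.
-/

set_option autoImplicit false
set_option linter.unusedSectionVars false
set_option linter.deprecated false

namespace Pool.Agent.H49.SB

open Pool.Agent.H75.Bunchy Pool.Agent.H26.Bunchy
open scoped Classical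

/-- The vertices over `J` can be divided into `r` parts, each of which has the share `1 / r` for all
fair weights. -/
def EqualParts {G B : Graph} (v : G.V → B.V) (J : B.V) (r : ℕ) : Prop :=
  ∃ c : G.V → ℕ, ∀ (pr : B.V → B.V → ℝ) (μ : G.V → ℝ), FairWeights v pr μ → ∀ x, v x = J →
    (r : ℝ) * ∑ᶠ y ∈ {y | v y = J ∧ c y = c x}, share v μ y = 1

section

noncomputable local instance instVLev (G : Graph) : Fintype G.V := Fintype.ofFinite _
noncomputable local instance instELev (G : Graph) : Fintype G.E := Fintype.ofFinite _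

variable {G H B : Graph}

/-- If some vertex splits, some right resolver has rank at least three. -/
theorem exists_rank_three (Θ : RightResolver H B) (hH : H.StronglyConnected)
    (hno : ∀ Θ' : RightResolver H B, Θ'.v = Θ.v → NoStable B.src B.tgt Θ'.v Θ'.act)
    {p : H.V} {J : B.V} (hpJ : 2 ≤ (FollowersOver Θ.v p J).ncard) :
    ∃ Θ' : RightResolver H B, Θ'.v = Θ.v ∧ 3 ≤ rank B.src B.tgt Θ'.v Θ'.act := by
  by_contra hcon
  push Not at hcon
  obtain ⟨τ, hτ, hpair, hone⟩ := exists_pairing B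
  obtain ⟨Φ', hv, hΦ'⟩ := exists_spread Θ hτ hone
  obtain ⟨e, he1, he2, he3⟩ := hpair (Θ.v p) J (hpJ.trans (Θ.ncard_followersOver_le p J))
  have hne : Φ'.act p e ≠ Φ'.act p (τ e) := hΦ' p e he1 he3 (by rw [he2]; exact hpJ)
  obtain ⟨pr, μ, hf⟩ := exists_fair Θ hH he1
  have hf' : FairWeights Φ'.v pr μ := by rw [hv]; exact hf
  have hstat := hf'.toStat
  have htwist : ∀ δ, ∃ Φ'' : RightResolver H B, Φ''.v = Θ.v ∧ Φ''.act = tw τ δ Φ'.act := by
    intro δ
    obtain ⟨Φ'', hv'', hact''⟩ := exists_twist Φ' hτ δ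
    exact ⟨Φ'', by rw [hv'', hv], hact''⟩
  have hno' : ∀ δ, NoStable B.src B.tgt Φ'.v (tw τ δ Φ'.act) := fun δ => by
    obtain ⟨Φ'', hv'', hact''⟩ := htwist δ
    have := hno Φ'' hv''
    rw [hv'', hact''] at this
    rw [hv]
    exact this
  have hr : ∀ δ, rank B.src B.tgt Φ'.v (tw τ δ Φ'.act) = 2 := fun δ => by
    obtain ⟨Φ'', hv'', hact''⟩ := htwist δ
    have h1 := hcon Φ'' hv''
    have h2 := two_le_rank_graph Φ'' hH (hno Φ'' hv'') (by rw [hv'']; exact hpJ)
    rw [hv'', hact''] at h1 h2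
    rw [hv]
    omega
  exact nsf22_tw hτ Φ'.act_typed (Φ'.conn hH) hstat
    (fun e => by simp only [hτ.hs, hτ.ht]) hno' ∅ p e (by rw [hv]; exact he1) hne (hr _) (hr _)

/-- The kernels of minimal words divide every fibre into equal parts. -/
lemma equalParts_of_rank (Θ : RightResolver H B) (Ψ : RightResolver G H) {v : G.V → B.V}
    (hcomm : ∀ p, Θ.v (Ψ.v p) = v p) (hH : H.StronglyConnected) (J : B.V) :
    EqualParts (B := B) v J (rank B.src B.tgt Θ.v Θ.act) := by
  obtain ⟨q, rfl⟩ := Θ.v_surj J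
  obtain ⟨u, hu, hr⟩ := exists_rank Θ.act_typed (Θ.conn hH) q
  exact ⟨_, (Pool.Agent.H35.Sel.balanced_word Θ hH hu hr).pull Ψ hcomm⟩

/-- the rank of a factor is at most the degree -/
lemma rank_le_of_degreeLe' (Θ : RightResolver H B) (Ψ : RightResolver G H) {v : G.V → B.V}
    (hcomm : ∀ p, Θ.v (Ψ.v p) = v p) {n : ℕ} (hdeg : DegreeLe (B := B) v n) :
    rank B.src B.tgt Θ.v Θ.act ≤ n := by
  have hv : (RightResolver.comp Θ Ψ).v = v := by
    funext p
    rw [RightResolver.comp_v, hcomm]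
  exact rank_le_of_degreeLe (Φ := RightResolver.comp Θ Ψ) Θ Ψ (fun _ => rfl)
    (by rw [hv]; exact hdeg) Θ rfl

/-- **Levels and degrees.** -/
theorem isBunchy_of_level_or_degree (hB : IsBunchy B) {Φ : RightResolver G B}
    (Θ : RightResolver H B) (Ψ : RightResolver G H) (hcomm : ∀ p, Θ.v (Ψ.v p) = Φ.v p)
    (hH : H.StronglyConnected)
    (hno : ∀ Θ' : RightResolver H B, Θ'.v = Θ.v → NoStable B.src B.tgt Θ'.v Θ'.act)
    (hlev : ∀ r : ℕ, 3 ≤ r → DegreeLe (B := B) Φ.v (r - 1) ∨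
      ∃ J, ¬ EqualParts (B := B) Φ.v J r) : IsBunchy H := by
  by_cases hex : ∃ p J, 2 ≤ (FollowersOver Θ.v p J).ncard
  · exfalso
    obtain ⟨p, J, hpJ⟩ := hex
    obtain ⟨Θ', hv, hr⟩ := exists_rank_three Θ hH hno hpJ
    have hc : ∀ x, Θ'.v (Ψ.v x) = Φ.v x := fun x => by rw [hv, hcomm]
    rcases hlev _ hr with h | ⟨K, hK⟩
    · have := rank_le_of_degreeLe' Θ' Ψ hc h
      omega
    · exact hK (equalParts_of_rank Θ' Ψ hc hH K)
  · push Not at hex
    exact isBunchy_of_no_split hB Θ hex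

/-- **Levels.** -/
theorem isBunchy_of_level (hB : IsBunchy B) {Φ : RightResolver G B} (Θ : RightResolver H B)
    (Ψ : RightResolver G H) (hcomm : ∀ p, Θ.v (Ψ.v p) = Φ.v p) (hH : H.StronglyConnected)
    (hno : ∀ Θ' : RightResolver H B, Θ'.v = Θ.v → NoStable B.src B.tgt Θ'.v Θ'.act)
    (hlev : ∀ r : ℕ, 3 ≤ r → ∃ J, ¬ EqualParts (B := B) Φ.v J r) : IsBunchy H := by
  by_cases hex : ∃ p J, 2 ≤ (FollowersOver Θ.v p J).ncard
  · exfalso
    obtain ⟨p, J, hpJ⟩ := hex
    obtain ⟨Θ', hv, hr⟩ := exists_rank_three Θ hH hno hpJ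
    obtain ⟨K, hK⟩ := hlev _ hr
    exact hK (equalParts_of_rank Θ' Ψ (fun x => by rw [hv, hcomm]) hH K)
  · push Not at hex
    exact isBunchy_of_no_split hB Θ hex

end

end Pool.Agent.H49.SB
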