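import Pool.Agent.H26.Bunchy.Graphs
import Pool.Agent.H75.Bunchy.Quot

/-!
# Push-forward of fair weights

The weights of a factor: fair weights, shares, shares of images.
-/

set_option autoImplicit false
set_option linter.unusedSectionVars false
set_option linter.deprecated false

namespace Pool.Agent.H49.SB

open Pool.Agent.H75.Bunchy Pool.Agent.H26.Bunchy
open scoped Classical

/-- the weights on a factor -/
noncomputable def pushW {G H : Graph} (w : G.V → H.V) (μ : G.V → ℝ) (y : H.V) : ℝ :=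
  ∑ᶠ x ∈ {x | w x = y}, μ x

lemma finsum_mem_ite {α : Type*} [Fintype α] (p : α → Prop) (f : α → ℝ) :
    ∑ᶠ x ∈ {x | p x}, f x = ∑ x, if p x then f x else 0 := by
  rw [finsum_mem_eq_finite_toFinset_sum _ (Set.toFinite _), ← Finset.sum_filter]
  refine Finset.sum_congr ?_ fun _ _ => rfl
  ext y
  rw [Set.Finite.mem_toFinset, Finset.mem_filter]
  simp

section

noncomputable local instance instVPush (G : Graph) : Fintype G.V := Fintype.ofFinite _
noncomputable local instance instEPush (G : Graph) : Fintype G.E := Fintype.ofFinite _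

variable {G H B : Graph}

/-- the total weight over a vertex of the base does not change -/
lemma pushW_total (Φ : RightResolver G B) (Θ : RightResolver H B) (Ψ : RightResolver G H)
    (hcomm : ∀ p, Θ.v (Ψ.v p) = Φ.v p) (μ : G.V → ℝ) (J : B.V) :
    ∑ᶠ y ∈ {y | Θ.v y = J}, pushW Ψ.v μ y = ∑ᶠ x ∈ {x | Φ.v x = J}, μ x := by
  rw [finsum_mem_ite, finsum_mem_ite]
  have h1 : ∀ y, (if Θ.v y = J then pushW Ψ.v μ y else 0) =
      ∑ x, if Ψ.v x = y then (if Φ.v x = J then μ x else 0) else 0 := by
    intro y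
    unfold pushW
    rw [finsum_mem_ite]
    split_ifs with hy
    · refine Finset.sum_congr rfl fun x _ => ?_
      split_ifs with h1 h2 h2
      · rfl
      · exact absurd (by rw [← hcomm, h1, hy]) h2
      · rfl
    · symm
      refine Finset.sum_eq_zero fun x _ => ?_
      split_ifs with h1 h2
      · exact absurd (by rw [← h1, hcomm, h2]) hy
      · rfl
      · rfl
  simp only [h1]
  rw [Finset.sum_comm]
  refine Finset.sum_congr rfl fun x _ => ?_
  rw [Finset.sum_ite_eq]
  simp

/-- **Push-forward of fair weights.** -/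
theorem FairWeights.push {Φ : RightResolver G B} {Θ : RightResolver H B} (Ψ : RightResolver G H)
    (hcomm : ∀ p, Θ.v (Ψ.v p) = Φ.v p) {pr : B.V → B.V → ℝ} {μ : G.V → ℝ}
    (hf : FairWeights Φ.v pr μ) : FairWeights Θ.v pr (pushW Ψ.v μ) := by
  refine ⟨hf.pos, hf.total, fun y => ?_, fun y => ?_⟩
  · obtain ⟨x, rfl⟩ := Ψ.v_surj y
    unfold pushW
    rw [finsum_mem_ite]
    refine Finset.sum_pos' (fun z _ => ?_) ⟨x, Finset.mem_univ _, ?_⟩
    · split_ifs
      · exact (hf.mu_pos z).le
      · exact le_rfl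
    · rw [if_pos rfl]; exact hf.mu_pos x
  · rw [finsum_mem_ite]
    have hR : pushW Ψ.v μ y = ∑ g : G.E, if Ψ.v (G.tgt g) = y then
        pr (Φ.v (G.src g)) (Φ.v (G.tgt g)) * μ (G.src g) else 0 := by
      unfold pushW
      rw [finsum_mem_ite]
      have h1 : ∀ z, (if Ψ.v z = y then μ z else 0) = ∑ g : G.E, if G.tgt g = z then
          (if Ψ.v (G.tgt g) = y then pr (Φ.v (G.src g)) (Φ.v (G.tgt g)) * μ (G.src g) else 0)
          else 0 := by
        intro z
        split_ifs with hz
        · rw [← hf.stat z, finsum_mem_ite]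
          refine Finset.sum_congr rfl fun g _ => ?_
          split_ifs with h1 h2 h2
          · rw [h1]
          · exact absurd (by rw [h1, hz]) h2
          · rfl
        · symm
          refine Finset.sum_eq_zero fun g _ => ?_
          split_ifs with h1 h2
          · exact absurd (by rw [← h1, h2]) hz
          · rfl
          · rfl
      simp only [h1]
      rw [Finset.sum_comm]
      refine Finset.sum_congr rfl fun g _ => ?_
      rw [Finset.sum_ite_eq]
      simp
    rw [hR, ← Finset.sum_fiberwise (s := Finset.univ) (g := Ψ.e)]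
    refine Finset.sum_congr rfl fun f _ => ?_
    unfold pushW
    rw [finsum_mem_ite, ← Finset.sum_filter, Finset.mul_sum]
    split_ifs with hfy
    · symm
      refine Finset.sum_bij (fun g _ => G.src g) ?_ ?_ ?_ ?_
      · intro g hg
        rw [Finset.mem_filter] at hg ⊢
        exact ⟨Finset.mem_univ _, by rw [← Ψ.src_comm, hg.2]⟩
      · intro g hg g' hg' h
        rw [Finset.mem_filter] at hg hg'
        exact Ψ.edge_unique h (by rw [hg.2, hg'.2])
      · intro x hx
        rw [Finset.mem_filter] at hx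
        obtain ⟨g, hg1, hg2⟩ := Ψ.exists_edge x (g := f) hx.2.symm
        exact ⟨g, by rw [Finset.mem_filter]; exact ⟨Finset.mem_univ _, hg2⟩, hg1⟩
      · intro g hg
        rw [Finset.mem_filter] at hg
        have h1 : Ψ.v (G.tgt g) = y := by rw [← Ψ.tgt_comm, hg.2, hfy]
        rw [if_pos h1, ← hcomm, ← hcomm, h1, ← Ψ.src_comm, hg.2]
    · symm
      refine Finset.sum_eq_zero fun g hg => ?_
      rw [Finset.mem_filter] at hg
      rw [if_neg]
      intro h
      exact hfy (by rw [← hg.2, Ψ.tgt_comm, h])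

/-- the share of a vertex of the factor is the sum of the shares of its preimages -/
lemma share_push (Φ : RightResolver G B) (Θ : RightResolver H B) (Ψ : RightResolver G H)
    (hcomm : ∀ p, Θ.v (Ψ.v p) = Φ.v p) (μ : G.V → ℝ) (y : H.V) :
    share Θ.v (pushW Ψ.v μ) y = ∑ᶠ x ∈ {x | Ψ.v x = y}, share Φ.v μ x := by
  have h0 : ∑ᶠ x ∈ {x | Ψ.v x = y}, share Φ.v μ x =
      ∑ x, if Ψ.v x = y then share Φ.v μ x else 0 := finsum_mem_ite (fun x => Ψ.v x = y) _
  have h1 : pushW Ψ.v μ y = ∑ x, if Ψ.v x = y then μ x else 0 :=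
    finsum_mem_ite (fun x => Ψ.v x = y) _
  rw [h0]
  unfold share
  rw [pushW_total Φ Θ Ψ hcomm, h1, Finset.sum_div]
  refine Finset.sum_congr rfl fun x _ => ?_
  split_ifs with h
  · rw [← h, hcomm]
  · rw [zero_div]

/-- the share of an image is at least the share of the set -/
lemma share_image_le {Φ : RightResolver G B} (Θ : RightResolver H B) (Ψ : RightResolver G H)
    (hcomm : ∀ p, Θ.v (Ψ.v p) = Φ.v p) {pr : B.V → B.V → ℝ} {μ : G.V → ℝ}
    (hf : FairWeights Φ.v pr μ) (C : Set G.V) :
    ∑ᶠ z ∈ C, share Φ.v μ z ≤ ∑ᶠ y ∈ Ψ.v '' C, share Θ.v (pushW Ψ.v μ) y := by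
  have hpos : ∀ x, 0 ≤ share Φ.v μ x := fun x => by
    rw [share_eq]; exact (wt_pos hf.mu_pos x).le
  have e1 : ∑ᶠ z ∈ C, share Φ.v μ z = ∑ x, if x ∈ C then share Φ.v μ x else 0 :=
    finsum_mem_ite (fun x => x ∈ C) _
  have e2 : ∑ᶠ y ∈ Ψ.v '' C, share Θ.v (pushW Ψ.v μ) y =
      ∑ y, if y ∈ Ψ.v '' C then share Θ.v (pushW Ψ.v μ) y else 0 :=
    finsum_mem_ite (fun y => y ∈ Ψ.v '' C) _
  rw [e1, e2]
  have h1 : ∀ y, (if y ∈ Ψ.v '' C then share Θ.v (pushW Ψ.v μ) y else 0) =
      ∑ x, if Ψ.v x = y then (if Ψ.v x ∈ Ψ.v '' C then share Φ.v μ x else 0) else 0 := by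
    intro y
    rw [share_push Φ Θ Ψ hcomm, finsum_mem_ite]
    split_ifs with hy
    · refine Finset.sum_congr rfl fun x _ => ?_
      split_ifs with h1 h2 h2
      · rfl
      · exact absurd (by rw [h1]; exact hy) h2
      · rfl
    · symm
      refine Finset.sum_eq_zero fun x _ => ?_
      split_ifs with h1 h2
      · exact absurd (by rw [← h1]; exact h2) hy
      · rfl
      · rfl
  simp only [h1]
  rw [Finset.sum_comm]
  refine Finset.sum_le_sum fun x _ => ?_
  rw [Finset.sum_ite_eq]
  simp only [Finset.mem_univ, if_true]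
  split_ifs with h2 h3 h3
  · exact le_rfl
  · exact absurd ⟨x, h2, rfl⟩ h3
  · exact hpos x
  · exact le_rfl

end

end Pool.Agent.H49.SB
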