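import Pool.Agent.H49.SB.Main

/-!
# Graph form of the two thirds bound, over all bases

The typed statement `ThirdBound` (proved by helper99) is transferred to right resolvers.
-/

set_option autoImplicit false
set_option linter.unusedSectionVars false
set_option linter.deprecated false

namespace Pool.Agent.H49.SB

open Pool.Agent.H75.Bunchy Pool.Agent.H26.Bunchy
open scoped Classical

/-- The typed form of the two thirds bound. -/
def ThirdBound : Prop :=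
  ∀ (V K E : Type) [Fintype V] [Fintype E] (s t : E → K) (σ : V → K) (a : V → E → V)
    (τ : E → E) (pr : E → ℝ) (μ : V → ℝ), Swp s t τ → Typed s t σ a → Conn s σ a →
    Stat s σ a pr μ → (∀ e, pr (τ e) = pr e) → (∀ e, ∃ p, s e = σ p) →
    (∀ δ, NoStable s t σ (tw τ δ a)) → (flex s σ a τ).Nonempty →
    ∃ x ∈ flex s σ a τ, ∀ c₀, Val s t σ a τ c₀ ∅ ∅ →
      3 * (2 * ∑ p ∈ c₀, wt σ μ p + ∑ y ∈ flex s σ a τ, wt σ μ y.1) ≤ 2 + 6 * wt σ μ x.1

section Graphs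

noncomputable local instance (G : Graph) : Fintype G.V := Fintype.ofFinite _
noncomputable local instance (G : Graph) : Fintype G.E := Fintype.ofFinite _

variable {G H : Graph}

/-- A common collapsible set is valid for the recolourings of a suitable right resolver. -/
lemma val_of_commonCollapse (Φ Φ' : RightResolver G H) (hv : Φ'.v = Φ.v) {τ : H.E → H.E}
    (htwist : ∀ δ, ∃ Φ'' : RightResolver G H, Φ''.v = Φ.v ∧ Φ''.act = tw τ δ Φ'.act)
    {C : Set G.V} (hne : C.Nonempty) (hC : CommonCollapse (H := H) Φ.v C) :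
    Val H.src H.tgt Φ'.v Φ'.act τ C.toFinite.toFinset ∅ ∅ := by
  obtain ⟨z, hz⟩ := hne
  obtain ⟨J, u, hCJ, hu⟩ := hC
  obtain ⟨K₀, hK₀⟩ := hu Φ' hv
  have hpath := ((Φ'.leads_iff _ _ _).1 (hK₀ z hz)).1
  rw [hv, hCJ z hz] at hpath
  refine ⟨J, fun x hx => ?_, u, hpath, fun δ' _ x hx y hy => ?_⟩
  · rw [Set.Finite.mem_toFinset] at hx
    rw [hv]; exact hCJ x hx
  · rw [Set.Finite.mem_toFinset] at hx hy
    obtain ⟨Φ'', hv'', hact''⟩ := htwist δ'
    obtain ⟨K', hK'⟩ := hu Φ'' hv''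
    have h1 := ((Φ''.leads_iff _ _ _).1 (hK' x hx)).2
    have h2 := ((Φ''.leads_iff _ _ _).1 (hK' y hy)).2
    rw [← hact'', h1, h2]

/-- The weight of the flexible slots is at least the weight of the splits. -/
lemma splits_sum_le (Φ Φ' : RightResolver G H) {τ : H.E → H.E}
    (hτ : Swp H.src H.tgt τ) {μ : G.V → ℝ} (hμ : ∀ x, 0 < μ x)
    (hlet : ∀ p J, 2 ≤ (FollowersOver Φ.v p J).ncard → ∃ e, H.src e = Φ.v p ∧ H.tgt e = J ∧
      Φ'.act p e ≠ Φ'.act p (τ e)) :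
    ∑ᶠ x, (splits Φ.v x : ℝ) * share Φ.v μ x ≤
      ∑ y ∈ flex H.src Φ.v Φ'.act τ, wt Φ.v μ y.1 := by
  simp only [share_eq]
  rw [finsum_eq_sum_of_fintype]
  by_cases hEne : Nonempty H.E
  swap
  · have h0 : ∀ x, (splits Φ.v x : ℝ) = 0 := by
      intro x
      rw [Nat.cast_eq_zero]
      unfold splits
      rw [Set.ncard_eq_zero (Set.toFinite _), Set.eq_empty_iff_forall_notMem]
      intro J hJ
      obtain ⟨e, _⟩ := hlet x J hJ
      exact hEne ⟨e⟩
    simp only [h0, zero_mul, Finset.sum_const_zero]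
    exact Finset.sum_nonneg fun x _ => (wt_pos hμ _).le
  choose! e he1 he2 he3 using hlet
  set P : Finset (G.V × H.V) := Finset.univ.filter fun x => 2 ≤ (FollowersOver Φ.v x.1 x.2).ncard
    with hP
  have h1 : ∑ x, (splits Φ.v x : ℝ) * wt Φ.v μ x = ∑ x ∈ P, wt Φ.v μ x.1 := by
    rw [hP, Finset.sum_filter, ← Finset.univ_product_univ, Finset.sum_product]
    refine Finset.sum_congr rfl fun p _ => ?_
    simp only
    rw [← Finset.sum_filter, Finset.sum_const, nsmul_eq_mul]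
    congr 2
    unfold splits
    rw [Set.ncard_eq_toFinset_card _ (Set.toFinite _)]
    congr 1
    ext J
    rw [Set.Finite.mem_toFinset, Finset.mem_filter]
    simp
  rw [h1]
  have hinj : Set.InjOn (fun x : G.V × H.V => slot τ x.1 (e x.1 x.2)) (P : Set (G.V × H.V)) := by
    rintro ⟨p, J⟩ hp ⟨q, J'⟩ hq heq
    simp only [hP, Finset.coe_filter, Finset.mem_univ, true_and, Set.mem_setOf_eq] at hp hq
    have h2 := slot_eq heq
    simp only at h2
    obtain ⟨rfl, h3⟩ := h2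
    have h4 : J = J' := by
      rw [← he2 p J hp, ← he2 p J' hq]
      rcases h3 with h | h
      · rw [h]
      · rw [h, hτ.ht]
    rw [h4]
  have h2 : ∑ x ∈ P, wt Φ.v μ x.1 =
      ∑ y ∈ P.image (fun x : G.V × H.V => slot τ x.1 (e x.1 x.2)), wt Φ.v μ y.1 := by
    rw [Finset.sum_image hinj]
    rfl
  rw [h2]
  refine Finset.sum_le_sum_of_subset_of_nonneg ?_ (fun y _ _ => (wt_pos hμ _).le)
  intro y hy
  rw [Finset.mem_image] at hy
  obtain ⟨⟨p, J⟩, hpJ, rfl⟩ := hy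
  rw [hP, Finset.mem_filter] at hpJ
  unfold flex
  rw [Finset.mem_filter]
  exact ⟨Finset.mem_univ _, e p J, he1 p J hpJ.2, he3 p J hpJ.2, rfl⟩

/-- The state of a flexible slot has two followers over one vertex. -/
lemma splits_pos_of_flex (Φ Φ' : RightResolver G H) (hv : Φ'.v = Φ.v) {τ : H.E → H.E}
    (hτ : Swp H.src H.tgt τ) {x : G.V × Sym2 H.E} (hx : x ∈ flex H.src Φ.v Φ'.act τ) :
    0 < splits Φ.v x.1 := by
  unfold flex at hx
  rw [Finset.mem_filter] at hx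
  obtain ⟨_, e, he, hne, _⟩ := hx
  have h2 : 2 ≤ (FollowersOver Φ.v x.1 (H.tgt e)).ncard := by
    rw [← Set.ncard_pair hne]
    refine Set.ncard_le_ncard ?_ (Set.toFinite _)
    rintro y (rfl | rfl)
    · rw [← hv, Φ'.mem_followersOver]
      exact ⟨e, by rw [he, hv], rfl, rfl⟩
    · rw [← hv, Φ'.mem_followersOver]
      exact ⟨τ e, by rw [hτ.hs, he, hv], hτ.ht e, rfl⟩
  exact (Set.ncard_pos (Set.toFinite _)).2 ⟨_, h2⟩

/-- **Graph form of the two thirds bound.** -/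
theorem third_bound_graph (TB : ThirdBound) (Φ : RightResolver G H) (hG : G.StronglyConnected)
    (hno : ∀ Φ' : RightResolver G H, Φ'.v = Φ.v → NoStable H.src H.tgt Φ'.v Φ'.act)
    {pr : H.V → H.V → ℝ} {μ : G.V → ℝ} (hf : FairWeights Φ.v pr μ) {x₀ : G.V}
    (hx₀ : 0 < splits Φ.v x₀) :
    ∃ p, 0 < splits Φ.v p ∧ ∀ C : Set G.V, C.Nonempty → CommonCollapse (H := H) Φ.v C →
      3 * (2 * ∑ᶠ z ∈ C, share Φ.v μ z + ∑ᶠ x, (splits Φ.v x : ℝ) * share Φ.v μ x) ≤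
        2 + 6 * share Φ.v μ p := by
  obtain ⟨τ, hτ, hpair, hone⟩ := exists_pairing H
  obtain ⟨Φ', hv, hΦ'⟩ := exists_spread Φ hτ hone
  have hlet : ∀ p J, 2 ≤ (FollowersOver Φ.v p J).ncard → ∃ e, H.src e = Φ.v p ∧ H.tgt e = J ∧
      Φ'.act p e ≠ Φ'.act p (τ e) := by
    intro p J h2
    obtain ⟨e, h3, h4, h5⟩ := hpair (Φ.v p) J (h2.trans (Φ.ncard_followersOver_le p J))
    exact ⟨e, h3, h4, hΦ' p e h3 h5 (by rw [h4]; exact h2)⟩
  have hf' : FairWeights Φ'.v pr μ := by rw [hv]; exact hf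
  have hstat := hf'.toStat
  have htwist : ∀ δ, ∃ Φ'' : RightResolver G H, Φ''.v = Φ.v ∧ Φ''.act = tw τ δ Φ'.act := by
    intro δ
    obtain ⟨Φ'', hv'', hact''⟩ := exists_twist Φ' hτ δ
    exact ⟨Φ'', by rw [hv'', hv], hact''⟩
  have hfl : (flex H.src Φ'.v Φ'.act τ).Nonempty := by
    obtain ⟨J, hJ⟩ := (Set.ncard_pos (Set.toFinite _)).1 hx₀
    obtain ⟨e, he1, he2, he3⟩ := hlet x₀ J hJ
    refine ⟨slot τ x₀ e, ?_⟩
    unfold flex
    rw [Finset.mem_filter]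
    exact ⟨Finset.mem_univ _, e, by rw [hv]; exact he1, he3, rfl⟩
  obtain ⟨x, hx, hb⟩ := TB G.V H.V H.E H.src H.tgt Φ'.v Φ'.act τ _ μ hτ Φ'.act_typed
    (Φ'.conn hG) hstat (fun e => by simp only [hτ.hs, hτ.ht])
    (fun e => by
      obtain ⟨p, hp⟩ := Φ'.v_surj (H.src e)
      exact ⟨p, hp.symm⟩)
    (fun δ => by
      obtain ⟨Φ'', hv'', hact''⟩ := htwist δ
      have := hno Φ'' hv''
      rw [hv'', hact''] at this
      rw [hv]
      exact this) hfl
  rw [hv] at hx hb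
  refine ⟨x.1, splits_pos_of_flex Φ Φ' hv hτ hx, fun C hne hC => ?_⟩
  have hval := val_of_commonCollapse Φ Φ' hv htwist hne hC
  rw [hv] at hval
  have h1 := hb _ hval
  have h2 := splits_sum_le Φ Φ' hτ hf.mu_pos hlet
  rw [finsum_mem_eq_finite_toFinset_sum _ C.toFinite, share_eq]
  have h3 : ∑ z ∈ C.toFinite.toFinset, share Φ.v μ z = ∑ z ∈ C.toFinite.toFinset, wt Φ.v μ z :=
    Finset.sum_congr rfl fun z _ => share_eq _ _ _
  rw [h3]
  linarith

/-- Twice the bound for one vertex: the weight of the splits is at most two thirds. -/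
theorem two_thirds_graph (TB : ThirdBound) (Φ : RightResolver G H) (hG : G.StronglyConnected)
    (hno : ∀ Φ' : RightResolver G H, Φ'.v = Φ.v → NoStable H.src H.tgt Φ'.v Φ'.act)
    {pr : H.V → H.V → ℝ} {μ : G.V → ℝ} (hf : FairWeights Φ.v pr μ) :
    3 * ∑ᶠ x, (splits Φ.v x : ℝ) * share Φ.v μ x ≤ 2 := by
  by_cases h0 : ∀ x, splits Φ.v x = 0
  · simp only [h0, Nat.cast_zero, zero_mul, finsum_zero]
    norm_num
  · push Not at h0
    obtain ⟨x₀, hx₀⟩ := h0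
    obtain ⟨p, _, hb⟩ := third_bound_graph TB Φ hG hno hf (Nat.pos_of_ne_zero hx₀)
    have := hb {p} ⟨p, rfl⟩ (commonCollapse_singleton Φ.v p)
    rw [finsum_mem_singleton] at this
    linarith

end Graphs

/-- A smallest synchronizing factor over `B`, with the property that is used. -/
theorem exists_factor (G B : Graph) (hG : G.StronglyConnected) (Φ : RightResolver G B) :
    ∃ (H : Graph) (Θ : RightResolver H B) (Ψ : RightResolver G H), Ψ.Synchronizing ∧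
      (∀ p, Θ.v (Ψ.v p) = Φ.v p) ∧ H.StronglyConnected ∧
      ∀ (N : Graph) (Λ : RightResolver H N),
        (Minimal B ∨ ∃ Γ : RightResolver N B, ∀ x, Γ.v (Λ.v x) = Θ.v x) →
        ∀ Λ' : RightResolver H N, Λ'.v = Λ.v → NoStable N.src N.tgt Λ'.v Λ'.act := by
  obtain ⟨H, Θ, Ψ, hΨ, hcomm, hmin⟩ := exists_smallest G B Φ
  refine ⟨H, Θ, Ψ, hΨ, hcomm, StronglyConnected.map Ψ hG, fun N Λ hov Λ' hv => ?_⟩
  have hov' : OverBase Θ Λ := by
    rcases hov with hB | h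
    · exact overBase_of_minimal hB Θ Λ
    · exact h
  exact noStable_of_smallest hΨ hcomm hmin Λ' (hov'.congr hv)

/-- The clause with the least number of ends. -/
theorem rank_clause {H N : Graph} (hH : H.StronglyConnected) (Λ : RightResolver H N)
    (hno : ∀ Λ' : RightResolver H N, Λ'.v = Λ.v → NoStable N.src N.tgt Λ'.v Λ'.act)
    (hi : ¬ Function.Injective Λ.v) :
    ∃ ρ : ℕ, 2 ≤ ρ ∧
      (∀ (Λ' : RightResolver H N) (J : N.V) (u : List N.E), Λ'.v = Λ.v → N.IsPath J u →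
        ρ ≤ {K | ∃ I, Λ'.v I = J ∧ Λ'.Leads I u K}.ncard) ∧
      (∃ (Λ' : RightResolver H N) (J : N.V) (u : List N.E), Λ'.v = Λ.v ∧ N.IsPath J u ∧
        {K | ∃ I, Λ'.v I = J ∧ Λ'.Leads I u K}.ncard = ρ) ∧
      ∀ (pr : N.V → N.V → ℝ) (μ : H.V → ℝ), FairWeights Λ.v pr μ →
        ∀ C : Set H.V, C.Nonempty → CommonCollapse (H := N) Λ.v C →
          (ρ : ℝ) * (2 * ∑ᶠ z ∈ C, share Λ.v μ z +
            ∑ᶠ x, (splits Λ.v x : ℝ) * share Λ.v μ x) ≤ 2 := by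
  have hne : Nonempty H.V := by
    by_contra h
    rw [not_nonempty_iff] at h
    exact hi fun x => (h.false x).elim
  obtain ⟨ρ, hρ, Λ₀, hv₀, J₀, u₀, hu₀, hcard⟩ := exists_least Λ hne
  have hle : ∀ (Λ' : RightResolver H N) (J : N.V) (u : List N.E), Λ'.v = Λ.v → N.IsPath J u →
      rank N.src N.tgt Λ'.v Λ'.act ≤ {K | ∃ I, Λ'.v I = J ∧ Λ'.Leads I u K}.ncard := by
    intro Λ' J u hv hu
    obtain ⟨q, rfl⟩ := Λ'.v_surj J
    rw [ends_eq Λ' hu]
    exact rank_le q u ((isPath_iff _ _ _).1 hu)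
  refine ⟨ρ, ?_, fun Λ' J u hv hu => (hρ Λ' hv).trans (hle Λ' J u hv hu),
    ⟨Λ₀, J₀, u₀, hv₀, hu₀, hcard⟩, fun pr μ hf C hC hCC =>
      weight_bound_graph_set Λ hH hno hρ hf hC hCC⟩
  rw [← hcard]
  exact (two_le_rank_of_not_injective Λ₀.act_typed (Λ₀.conn hH) (hno Λ₀ hv₀)
    (by rw [hv₀]; exact hi)).trans (hle Λ₀ J₀ u₀ hv₀ hu₀)

/-- **Final form with two thirds.** -/
theorem main_final_tt (TB : ThirdBound) (G B : Graph) (hG : G.StronglyConnected)
    (Φ : RightResolver G B) :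
    ∃ (H : Graph) (Θ : RightResolver H B) (Ψ : RightResolver G H), Ψ.Synchronizing ∧
      (∀ p, Θ.v (Ψ.v p) = Φ.v p) ∧
      (IsBunchy B → Function.Injective Θ.v → IsBunchy H) ∧
      ∀ (N : Graph) (Λ : RightResolver H N),
        (Minimal B ∨ ∃ Γ : RightResolver N B, ∀ x, Γ.v (Λ.v x) = Θ.v x) →
        (∀ (pr : N.V → N.V → ℝ) (μ : H.V → ℝ), FairWeights Λ.v pr μ →
          3 * ∑ᶠ x, (splits Λ.v x : ℝ) * share Λ.v μ x ≤ 2 ∧
          ((∃ x, 0 < splits Λ.v x) → ∃ p, 0 < splits Λ.v p ∧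
            ∀ C : Set H.V, C.Nonempty → CommonCollapse (H := N) Λ.v C →
              3 * (2 * ∑ᶠ z ∈ C, share Λ.v μ z +
                ∑ᶠ x, (splits Λ.v x : ℝ) * share Λ.v μ x) ≤ 2 + 6 * share Λ.v μ p)) ∧
        (¬ Function.Injective Λ.v →
          ∃ ρ : ℕ, 2 ≤ ρ ∧
            (∀ (Λ' : RightResolver H N) (J : N.V) (u : List N.E), Λ'.v = Λ.v → N.IsPath J u →
              ρ ≤ {K | ∃ I, Λ'.v I = J ∧ Λ'.Leads I u K}.ncard) ∧
            (∃ (Λ' : RightResolver H N) (J : N.V) (u : List N.E), Λ'.v = Λ.v ∧ N.IsPath J u ∧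
              {K | ∃ I, Λ'.v I = J ∧ Λ'.Leads I u K}.ncard = ρ) ∧
            ∀ (pr : N.V → N.V → ℝ) (μ : H.V → ℝ), FairWeights Λ.v pr μ →
              ∀ C : Set H.V, C.Nonempty → CommonCollapse (H := N) Λ.v C →
                (ρ : ℝ) * (2 * ∑ᶠ z ∈ C, share Λ.v μ z +
                  ∑ᶠ x, (splits Λ.v x : ℝ) * share Λ.v μ x) ≤ 2) := by
  obtain ⟨H, Θ, Ψ, hΨ, hcomm, hH, hall⟩ := exists_factor G B hG Φ
  refine ⟨H, Θ, Ψ, hΨ, hcomm, fun hB hi => isBunchy_of_injective hB Θ hi, fun N Λ hov => ?_⟩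
  have hno := hall N Λ hov
  refine ⟨fun pr μ hf => ⟨two_thirds_graph TB Λ hH hno hf, fun ⟨x, hx⟩ => ?_⟩,
    fun hi => rank_clause hH Λ hno hi⟩
  exact third_bound_graph TB Λ hH hno hf hx

end Pool.Agent.H49.SB
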